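import Pool.Agent.Q283.PQ.Stm
import Pool.Agent.Q283.FT.Stm2

/-!
# Project PQ (helper283), job TBI: few tables have more than the four solutions of the torsion

Number fields which contain `i` (no reciprocity term).
-/

set_option autoImplicit false
set_option linter.unusedSectionVars false

namespace Pool.Agent.Q181.PQ

open Finset Module
open Pool.Agent.Q283.FT
open Pool.Agent.Q283.PQ
open Pool.Agent.Q7.LK (Tab Mt dot)
open scoped Classical

theorem u2_add_self (x : U2) : x + x = 0 := by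
  have h : (2 : ZMod 2) • x = x + x := two_smul _ x
  have h2 : (2 : ZMod 2) = 0 := by decide
  rw [← h, h2, zero_smul]

theorem u2_eq_of_add {x y : U2} (h : x + y = 0) : y = x := by
  have h1 : x + (x + y) = x + 0 := by rw [h]
  rw [← add_assoc, u2_add_self, zero_add, add_zero] at h1
  exact h1

theorem zmod2_ne {a b : ZMod 2} (h : a ≠ b) : a + b = 1 := by
  revert a b
  decide

/-- summation over a fibration of a product -/
theorem card_fib {α β : Type} [Fintype α] [Fintype β] (P : α → Prop) (Q : α × β → Prop)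
    [DecidablePred P] [DecidablePred fun τ : α × β => P τ.1 ∧ Q τ]
    [∀ a, DecidablePred fun b : β => Q (a, b)] :
    ((univ.filter fun τ : α × β => P τ.1 ∧ Q τ).card : ℝ) =
      ∑ a ∈ univ.filter (fun a : α => P a), ((univ.filter fun b : β => Q (a, b)).card : ℝ) := by
  have h : (univ.filter fun τ : α × β => P τ.1 ∧ Q τ).card =
      ∑ a ∈ univ.filter (fun a : α => P a), (univ.filter fun b : β => Q (a, b)).card := by
    rw [Finset.card_eq_sum_card_fiberwise (f := fun τ : α × β => τ.1)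
      (t := univ.filter (fun a : α => P a))]
    · refine sum_congr rfl fun a ha => ?_
      have ha' : P a := (mem_filter.1 ha).2
      refine Finset.card_bij (fun τ _ => τ.2) ?_ ?_ ?_
      · intro τ hτ
        rw [mem_filter, mem_filter] at hτ
        obtain ⟨⟨_, _, h2⟩, h3⟩ := hτ
        rw [mem_filter]
        refine ⟨mem_univ _, ?_⟩
        have : (a, τ.2) = τ := by rw [← h3]
        rw [this]
        exact h2
      · intro τ hτ τ' hτ' hh
        rw [mem_filter] at hτ hτ'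
        exact Prod.ext (hτ.2.trans hτ'.2.symm) hh
      · intro b hb
        rw [mem_filter] at hb
        refine ⟨(a, b), ?_, rfl⟩
        rw [mem_filter, mem_filter]
        exact ⟨⟨mem_univ _, ha', hb.2⟩, rfl⟩
    · intro τ hτ
      have hτ' := (mem_filter.1 hτ).2.1
      exact mem_coe.2 (mem_filter.2 ⟨mem_univ _, hτ'⟩)
  rw [h]
  push_cast
  rfl

theorem NT_eq {f k : ℕ} (φ : Fin k → Fin f → ZMod 2) (t : Tt k) (p q : Fin k) :
    NT (f := f) (φ, t) p q = Nt (fun _ _ => 0) t p q := by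
  unfold NT Mt Nt
  rcases lt_trichotomy p q with h | h | h
  · have h1 : ¬ q < p := not_lt_of_gt h
    rw [dif_neg h1, dif_pos h, dif_pos h]
  · subst h
    rw [dif_neg (lt_irrefl p), dif_neg (lt_irrefl p), dif_neg (lt_irrefl p), dif_neg (lt_irrefl p),
      add_zero]
  · have h1 : ¬ p < q := not_lt_of_gt h
    rw [dif_pos h, dif_neg h1, dif_pos h, add_zero]

theorem mem_Sel' {f k : ℕ} (D : Dj (Fin f) U2) (N : Fin k → Fin k → ZMod 2)
    (φ : Fin k → Fin f → ZMod 2) (z : (Fin f → U2) × (Fin k → U2)) :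
    z ∈ Sel D N φ ↔ ((z.1, fun l => ∑ p, φ p l • z.2 p) ∈ D.𝓛 ∧
      ∀ p, ∑ q, N p q • (z.2 q + z.2 p) + D.T (φ p) (z.2 p) + ∑ l, φ p l • z.1 l = 0) := by
  unfold Sel
  rw [Submodule.mem_inf, Submodule.mem_comap, LinearMap.mem_ker, funext_iff]
  rfl

section const

variable {f k : ℕ} (T : (Fin f → ZMod 2) →ₗ[ZMod 2] U2 →ₗ[ZMod 2] U2)

/-- the constant solutions -/
noncomputable def cst (k : ℕ) (a : U2) : (Fin f → U2) × (Fin k → U2) :=
  (fun t => T (Pi.single t 1) a, fun _ => a)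

theorem T_expand (φ : Fin f → ZMod 2) (a : U2) :
    ∑ l, φ l • T (Pi.single l 1) a = T φ a := by
  have h : φ = ∑ l, φ l • (Pi.single l (1 : ZMod 2) : Fin f → ZMod 2) := by
    funext j
    rw [Finset.sum_apply, Finset.sum_eq_single j]
    · rw [Pi.smul_apply, Pi.single_eq_same, smul_eq_mul, mul_one]
    · intro b _ hb
      rw [Pi.smul_apply, Pi.single_eq_of_ne hb.symm, smul_zero]
    · intro hj
      exact (hj (mem_univ _)).elim
  conv_rhs => rw [h]
  rw [map_sum, LinearMap.sum_apply]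
  exact sum_congr rfl fun l _ => by rw [map_smul, LinearMap.smul_apply]

theorem rows_const (N : Fin k → Fin k → ZMod 2) (a : U2) (p : Fin k) :
    ∑ q : Fin k, N p q • (a + a) = 0 :=
  Finset.sum_eq_zero fun q _ => by rw [u2_add_self, smul_zero]

theorem cst_mem (D : Dj (Fin f) U2) (N : Fin k → Fin k → ZMod 2) (φ : Fin k → Fin f → ZMod 2)
    (ρ : Fin f → ZMod 2) (hs : ∑ j, φ j = ρ)
    (htor : ∀ x : U2, ((fun t => D.T (Pi.single t 1) x), (fun t => ρ t • x)) ∈ D.𝓛) (a : U2) :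
    cst D.T k a ∈ Sel D N φ := by
  rw [mem_Sel']
  refine ⟨?_, fun p => ?_⟩
  · have h : (fun l => ∑ p, φ p l • (cst D.T k a).2 p) = fun t => ρ t • a := by
      funext l
      show ∑ p, φ p l • a = ρ l • a
      rw [← Finset.sum_smul, ← hs, Finset.sum_apply]
    rw [h]
    exact htor a
  · show ∑ q, N p q • (a + a) + D.T (φ p) a + ∑ l, φ p l • D.T (Pi.single l 1) a = 0
    rw [rows_const, zero_add, T_expand, u2_add_self]

theorem eq_cst (D : Dj (Fin f) U2) (N : Fin k → Fin k → ZMod 2) (φ : Fin k → Fin f → ZMod 2)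
    (hl : ∀ l, ∃ p, φ p = Pi.single l 1) (a : U2) (z : (Fin f → U2) × (Fin k → U2))
    (hz : z ∈ Sel D N φ) (hc : ∀ i, z.2 i = a) : z = cst D.T k a := by
  rw [mem_Sel'] at hz
  obtain ⟨_, hr⟩ := hz
  refine Prod.ext ?_ (funext hc)
  funext l
  obtain ⟨p, hp⟩ := hl l
  have h := hr p
  have h1 : ∑ q, N p q • (z.2 q + z.2 p) = 0 := by
    have h2 : ∀ q, z.2 q + z.2 p = a + a := fun q => by rw [hc q, hc p]
    simp only [h2]
    exact rows_const N a p
  rw [h1, zero_add, hp, hc p] at h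
  have h3 : ∑ l', (Pi.single l (1 : ZMod 2) : Fin f → ZMod 2) l' • z.1 l' = z.1 l := by
    rw [Finset.sum_eq_single l]
    · rw [Pi.single_eq_same, one_smul]
    · intro b _ hb
      rw [Pi.single_eq_of_ne hb, zero_smul]
    · intro hj
      exact (hj (mem_univ _)).elim
  rw [h3] at h
  exact u2_eq_of_add h

theorem cst_inj (hk : 0 < k) : Function.Injective (cst (f := f) T k) := by
  intro a b h
  have h2 := congrFun (congrArg Prod.snd h) ⟨0, hk⟩
  exact h2

end const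

theorem nSel_eq_add {f k : ℕ} (t₀ : Fin f) (c : Fin 3 → Fin f → ZMod 2) (w : Fin f → ZMod 2)
    (𝓛 : Submodule (ZMod 2) ((Fin f → U2) × (Fin f → U2))) (ρ : Fin f → ZMod 2)
    (htor : ∀ x : U2, ((fun t => opT c w (Pi.single t 1) x), (fun t => ρ t • x)) ∈ 𝓛)
    (φ : Fin k → Fin f → ZMod 2) (hs : ∑ j, φ j = ρ) (hl : ∀ l, ∃ p, φ p = Pi.single l 1)
    (hk : 0 < k) (t : Tt k) :
    nSel (dj t₀ c w 𝓛) (φ, t) = 4 + (NonC (opT c w) 𝓛 φ (fun _ _ => 0) t).ncard := by
  set D := dj t₀ c w 𝓛 with hD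
  have hT : D.T = opT c w := rfl
  have hset : ((Sel D (NT (φ, t)) φ : Submodule (ZMod 2) ((Fin f → U2) × (Fin k → U2))) :
      Set ((Fin f → U2) × (Fin k → U2))) =
      Set.range (cst (opT c w) k) ∪ NonC (opT c w) 𝓛 φ (fun _ _ => 0) t := by
    ext z
    constructor
    · intro hz
      have hz' : z ∈ Sel D (NT (φ, t)) φ := hz
      by_cases hc : ∃ i j, z.2 i ≠ z.2 j
      · right
        rw [mem_Sel'] at hz'
        refine ⟨hz'.1, fun p => ?_, hc⟩
        have h := hz'.2 p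
        have h1 : ∑ q, NT (f := f) (φ, t) p q • (z.2 q + z.2 p) =
            ∑ q, Nt (fun _ _ => 0) t p q • (z.2 q + z.2 p) :=
          sum_congr rfl fun q _ => by rw [NT_eq]
        rw [h1] at h
        exact h
      · left
        push Not at hc
        exact ⟨z.2 ⟨0, hk⟩, (eq_cst D (NT (φ, t)) φ hl (z.2 ⟨0, hk⟩) z hz'
          (fun i => hc i ⟨0, hk⟩)).symm⟩
    · rintro (⟨a, rfl⟩ | hz)
      · exact cst_mem D (NT (φ, t)) φ ρ hs htor a
      · show z ∈ Sel D (NT (φ, t)) φ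
        rw [mem_Sel']
        refine ⟨hz.1, fun p => ?_⟩
        have h := hz.2.1 p
        have h1 : ∑ q, NT (f := f) (φ, t) p q • (z.2 q + z.2 p) =
            ∑ q, Nt (fun _ _ => 0) t p q • (z.2 q + z.2 p) :=
          sum_congr rfl fun q _ => by rw [NT_eq]
        rw [h1]
        exact h
  have hdis : Disjoint (Set.range (cst (f := f) (opT c w) k)) (NonC (opT c w) 𝓛 φ (fun _ _ => 0) t) := by
    rw [Set.disjoint_left]
    rintro _ ⟨a, rfl⟩ ⟨_, _, i, j, hij⟩
    exact hij rfl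
  have h4 : (Set.range (cst (f := f) (opT c w) k)).ncard = 4 := by
    rw [Set.ncard_range_of_injective (cst_inj (opT c w) hk), Nat.card_prod]
    simp
  unfold nSel
  have h5 : Nat.card (Sel D (NT (φ, t)) φ) =
      ((Sel D (NT (φ, t)) φ : Submodule (ZMod 2) ((Fin f → U2) × (Fin k → U2))) :
      Set ((Fin f → U2) × (Fin k → U2))).ncard := rfl
  show Nat.card (Sel D (NT (φ, t)) φ) = _
  rw [h5, hset, Set.ncard_union_eq hdis (Set.toFinite _) (Set.toFinite _), h4]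

theorem nSel_pow {f k : ℕ} (D : Dj (Fin f) U2) (τ : Tab 2 f k) : ∃ r : ℕ, nSel D τ = 2 ^ r := by
  unfold nSel
  refine ⟨finrank (ZMod 2) (Sel D (NT τ) τ.1), ?_⟩
  rw [Module.natCard_eq_pow_finrank (K := ZMod 2), Nat.card_zmod]

theorem four_le {n r : ℕ} (h : 4 + n = 2 ^ r) (hn : 4 + n ≠ 4) : 4 ≤ n := by
  by_contra hlt
  push Not at hlt
  have h1 : 2 < r := by
    by_contra hr
    push Not at hr
    have : 2 ^ r ≤ 2 ^ 2 := Nat.pow_le_pow_right (by norm_num) hr
    omega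
  have h2 : 2 ^ 3 ≤ 2 ^ r := Nat.pow_le_pow_right (by norm_num) h1
  omega

theorem om_opT {f : ℕ} (c : Fin 3 → Fin f → ZMod 2) (w : Fin f → ZMod 2)
    (h12 : c 1 ≠ c 2) (h01 : c 0 ≠ c 1) (h02 : c 0 ≠ c 2) (v : U2) (hv : v ≠ 0) :
    ∃ φ, om v (opT c w φ v) ≠ 0 := by
  have key : ∀ a b : Fin f → ZMod 2, a ≠ b → ∃ l, a l + b l = 1 := by
    intro a b hab
    obtain ⟨l, hl⟩ := Function.ne_iff.mp hab
    exact ⟨l, zmod2_ne hl⟩
  have hd : ∀ (l : Fin f) (z : Fin f → ZMod 2), dot (Pi.single l 1) z = z l := by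
    intro l z
    unfold dot
    rw [Finset.sum_eq_single l]
    · rw [Pi.single_eq_same, one_mul]
    · intro b _ hb
      rw [Pi.single_eq_of_ne hb, zero_mul]
    · intro hj
      exact (hj (mem_univ _)).elim
  have he : ∀ (l : Fin f) (x : U2), om x (opT c w (Pi.single l 1) x) =
      x.1 * (c 2 l * (x.1 + x.2) + c 0 l * x.1 + w l * x.2) +
      x.2 * (c 2 l * (x.1 + x.2) + c 1 l * x.2 + w l * x.1) := by
    intro l x
    show x.1 * (dot (Pi.single l 1) (c 2) * (x.1 + x.2) + dot (Pi.single l 1) (c 0) * x.1 +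
      dot (Pi.single l 1) w * x.2) + x.2 * (dot (Pi.single l 1) (c 2) * (x.1 + x.2) +
      dot (Pi.single l 1) (c 1) * x.2 + dot (Pi.single l 1) w * x.1) = _
    rw [hd, hd, hd, hd]
  have hcase : ∀ (x : U2), x ≠ 0 → x = (1, 0) ∨ x = (0, 1) ∨ x = (1, 1) := by decide
  rcases hcase v hv with rfl | rfl | rfl
  · obtain ⟨l, hl⟩ := key _ _ h02
    refine ⟨Pi.single l 1, ?_⟩
    rw [he]
    have : ∀ p q r : ZMod 2, p + q = 1 →
        (1 : ZMod 2) * (q * (1 + 0) + p * 1 + r * 0) + 0 * (q * (1 + 0) + r * 0 + r * 1) ≠ 0 := by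
      decide
    have h := this (c 0 l) (c 2 l) (w l) hl
    intro h0
    apply h
    simpa using h0
  · obtain ⟨l, hl⟩ := key _ _ h12
    refine ⟨Pi.single l 1, ?_⟩
    rw [he]
    intro h0
    have h1 : c 1 l + c 2 l = 0 := by
      have e : (0 : ZMod 2) * (c 2 l * (0 + 1) + c 0 l * 0 + w l * 1) +
        1 * (c 2 l * (0 + 1) + c 1 l * 1 + w l * 0) = c 1 l + c 2 l := by ring
      rw [← e]
      exact h0
    rw [hl] at h1
    exact one_ne_zero h1
  · obtain ⟨l, hl⟩ := key _ _ h01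
    refine ⟨Pi.single l 1, ?_⟩
    rw [he]
    intro h0
    have gen : ∀ p q r s : ZMod 2, (1 : ZMod 2) * (r * (1 + 1) + p * 1 + s * 1) +
        1 * (r * (1 + 1) + q * 1 + s * 1) = p + q := by decide
    have h1 : c 0 l + c 1 l = 0 := by
      rw [← gen (c 0 l) (c 1 l) (c 2 l) (w l)]
      exact h0
    rw [hl] at h1
    exact one_ne_zero h1

theorem tbi (hFMG : S_FMG) (hLBS : S_LBS) : S_TBI := by
  intro f t₀ c w 𝓛 ρ d h12 h01 h02 hcard htor ε hε
  obtain ⟨R, hR1, hR⟩ := hFMG f (opT c w) (om_opT c w h12 h01 h02) d 𝓛 hcard (2 * ε) (by positivity)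
  obtain ⟨k0, hk0⟩ := hLBS f R (ε / 2) (by positivity)
  refine ⟨k0, fun k hk => ?_⟩
  have hb := hk0 k hk ρ
  set T : Finset (Fin k → Fin f → ZMod 2) :=
    univ.filter (fun φ : Fin k → Fin f → ZMod 2 => ∑ j, (1 : ZMod 2) • φ j = ρ) with hT
  set Bad : Finset (Fin k → Fin f → ZMod 2) := (univ.filter fun φ : Fin k → Fin f → ZMod 2 =>
    ∑ j, (1 : ZMod 2) • φ j = ρ ∧ ∃ χ, (univ.filter fun i => φ i = χ).card < R) with hBad
  set N : ℝ := (Fintype.card ({x : Fin k × Fin k // x.1 < x.2} → ZMod 2) : ℝ) with hN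
  have hN0 : 0 ≤ N := Nat.cast_nonneg _
  let A : (Fin k → Fin f → ZMod 2) → ℝ := fun φ =>
    ((univ.filter fun t : {x : Fin k × Fin k // x.1 < x.2} → ZMod 2 =>
      nSel (dj t₀ c w 𝓛) (φ, t) ≠ 4).card : ℝ)
  have e1 : ((univ.filter fun τ : Tab 2 f k =>
      ∑ j, (1 : ZMod 2) • τ.1 j = ρ ∧ nSel (dj t₀ c w 𝓛) τ ≠ 4).card : ℝ) = ∑ φ ∈ T, A φ :=
    card_fib (fun φ : Fin k → Fin f → ZMod 2 => ∑ j, (1 : ZMod 2) • φ j = ρ)
      (fun τ : Tab 2 f k => nSel (dj t₀ c w 𝓛) τ ≠ 4)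
  have e2 : ((univ.filter fun τ : Tab 2 f k => ∑ j, (1 : ZMod 2) • τ.1 j = ρ).card : ℝ) =
      (T.card : ℝ) * N := by
    have h : ((univ.filter fun τ : Tab 2 f k => ∑ j, (1 : ZMod 2) • τ.1 j = ρ ∧ True).card : ℝ) =
        ∑ φ ∈ T, ((univ.filter fun _ : {x : Fin k × Fin k // x.1 < x.2} → ZMod 2 => True).card : ℝ) :=
      card_fib (fun φ : Fin k → Fin f → ZMod 2 => ∑ j, (1 : ZMod 2) • φ j = ρ)
      (fun τ : Tab 2 f k => True)
    have h2 : (univ.filter fun τ : Tab 2 f k => ∑ j, (1 : ZMod 2) • τ.1 j = ρ).card =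
        (univ.filter fun τ : Tab 2 f k => ∑ j, (1 : ZMod 2) • τ.1 j = ρ ∧ True).card := by
      refine congrArg Finset.card (Finset.ext fun τ => ?_)
      simp only [mem_filter, and_true]
    rw [h2, h]
    simp only [filter_true, card_univ, sum_const, nsmul_eq_mul]
    rfl
  rw [e1, e2]
  have hBT : Bad ⊆ T := by
    intro φ hφ
    rw [hBad, mem_filter] at hφ
    rw [hT, mem_filter]
    exact ⟨mem_univ _, hφ.2.1⟩
  have hA1 : ∀ φ, A φ ≤ N := fun φ => by
    have : (univ.filter fun t : {x : Fin k × Fin k // x.1 < x.2} → ZMod 2 =>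
      nSel (dj t₀ c w 𝓛) (φ, t) ≠ 4).card ≤
        Fintype.card ({x : Fin k × Fin k // x.1 < x.2} → ZMod 2) := Finset.card_le_univ _
    exact Nat.cast_le.2 this
  have hg : ∀ φ ∈ T \ Bad, A φ ≤ (2 / 2 ^ d + ε / 2) * N := by
    intro φ hφ
    rw [Finset.mem_sdiff] at hφ
    have h1 : ∑ j, (1 : ZMod 2) • φ j = ρ := (mem_filter.1 hφ.1).2
    have h2 : ∀ χ, R ≤ (univ.filter fun i => φ i = χ).card := by
      intro χ
      by_contra hlt
      push Not at hlt
      exact hφ.2 (mem_filter.2 ⟨mem_univ _, h1, χ, hlt⟩)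
    have h3 : ∑ j, φ j = ρ := by
      rw [← h1]
      exact sum_congr rfl fun j _ => (one_smul _ _).symm
    have hex : ∀ χ, ∃ p, φ p = χ := by
      intro χ
      have h4 : 0 < (univ.filter fun i => φ i = χ).card := lt_of_lt_of_le hR1 (h2 χ)
      obtain ⟨p, hp⟩ := Finset.card_pos.mp h4
      exact ⟨p, (mem_filter.1 hp).2⟩
    have hk1 : 0 < k := by
      obtain ⟨p, _⟩ := hex 0
      exact lt_of_le_of_lt (Nat.zero_le _) p.isLt
    have hM := hR k φ (fun _ _ => 0) h2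
    have hpt : ∀ t : Tt k, (if nSel (dj t₀ c w 𝓛) (φ, t) ≠ 4 then (1 : ℝ) else 0) ≤
        ((NonC (opT c w) 𝓛 φ (fun _ _ => 0) t).ncard : ℝ) / 4 := by
      intro t
      have h5 := nSel_eq_add t₀ c w 𝓛 ρ htor φ h3 (fun l => hex _) hk1 t
      split_ifs with h6
      · obtain ⟨r, hr⟩ := nSel_pow (dj t₀ c w 𝓛) (φ, t)
        rw [h5] at h6 hr
        have h7 := four_le hr h6
        have h8 : (4 : ℝ) ≤ ((NonC (opT c w) 𝓛 φ (fun _ _ => 0) t).ncard : ℝ) := by
          exact_mod_cast h7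
        linarith
      · positivity
    have hA : A φ = ∑ t : Tt k, (if nSel (dj t₀ c w 𝓛) (φ, t) ≠ 4 then (1 : ℝ) else 0) := by
      rw [Finset.sum_boole]
    rw [hA]
    refine (sum_le_sum fun t _ => hpt t).trans ?_
    rw [← Finset.sum_div]
    have h9 : (∑ t : Tt k, ((NonC (opT c w) 𝓛 φ (fun _ _ => 0) t).ncard : ℝ)) / 4 ≤
        ((8 / 2 ^ d + 2 * ε) * N) / 4 := div_le_div_of_nonneg_right hM (by norm_num)
    refine h9.trans (le_of_eq ?_)
    ring
  have hbd : ∀ φ ∈ Bad, A φ ≤ N := fun φ _ => hA1 φ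
  rw [← sum_sdiff hBT]
  have s1 : ∑ φ ∈ T \ Bad, A φ ≤ (T.card : ℝ) * ((2 / 2 ^ d + ε / 2) * N) := by
    refine (sum_le_sum hg).trans ?_
    rw [sum_const, nsmul_eq_mul]
    have : ((T \ Bad).card : ℝ) ≤ (T.card : ℝ) := by
      exact_mod_cast card_le_card sdiff_subset
    exact mul_le_mul_of_nonneg_right this (by positivity)
  have s2 : ∑ φ ∈ Bad, A φ ≤ (ε / 2 * (T.card : ℝ)) * N := by
    refine (sum_le_sum hbd).trans ?_
    rw [sum_const, nsmul_eq_mul]
    exact mul_le_mul_of_nonneg_right hb hN0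
  calc ∑ φ ∈ T \ Bad, A φ + ∑ φ ∈ Bad, A φ
      ≤ (T.card : ℝ) * ((2 / 2 ^ d + ε / 2) * N) + (ε / 2 * (T.card : ℝ)) * N := add_le_add s1 s2
    _ = (2 / 2 ^ d + ε) * ((T.card : ℝ) * N) := by ring

end Pool.Agent.Q181.PQ
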